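import Pool.Agent.H68.AC.Targets

/-!
# SETH for constant-depth circuits, module UNI: the union bound
-/

namespace Pool.Agent.H81.AC

open Finset Pool.Agent.H68.AC

theorem ind_nonneg (p : Prop) : 0 ≤ ind p := by
  unfold ind; split_ifs <;> norm_num

theorem ind_le_one (p : Prop) : ind p ≤ 1 := by
  unfold ind; split_ifs <;> norm_num

theorem ind_of {p : Prop} (h : p) : ind p = 1 := by
  unfold ind; rw [if_pos h]

theorem ind_congr {p p' : Prop} (h : p ↔ p') : ind p = ind p' := by
  rw [propext h]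

theorem w1_nonneg {q p : ℝ} (hq : 0 ≤ q) (hq1 : q ≤ 1) (hp : 0 ≤ p) (hp1 : p ≤ 1) (o : Option Bool) :
    0 ≤ w1 q p o := by
  rcases o with _ | (_ | _)
  · exact hq
  · exact mul_nonneg (by linarith) (by linarith)
  · exact mul_nonneg (by linarith) hp

theorem wt_nonneg {V : Type} [Fintype V] {q p : ℝ} (hq : 0 ≤ q) (hq1 : q ≤ 1) (hp : 0 ≤ p) (hp1 : p ≤ 1)
    (R : PA V) : 0 ≤ wt q p R := prod_nonneg fun v _ => w1_nonneg hq hq1 hp hp1 _

theorem Wt_nonneg {V : Type} [Fintype V] {d : ℕ} {q p : ℝ} (hq : 0 ≤ q) (hq1 : q ≤ 1) (hp : 0 ≤ p)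
    (hp1 : p ≤ 1) (R : Fin d → PA V) : 0 ≤ Wt q p R := prod_nonneg fun v _ => wt_nonneg hq hq1 hp hp1 _

theorem wz_nonneg {V : Type} [Fintype V] {p : ℝ} (hp : 0 ≤ p) (hp1 : p ≤ 1) (z : V → Bool) :
    0 ≤ wz p z := prod_nonneg fun v _ => by split_ifs <;> linarith

theorem sum_wz {V : Type} [DecidableEq V] [Fintype V] (p : ℝ) : ∑ z : V → Bool, wz p z = 1 := by
  have := Finset.prod_univ_sum (fun _ : V => (univ : Finset Bool)) (fun _ b => if b then p else 1 - p)
  simp only [Fintype.piFinset_univ] at this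
  unfold wz
  rw [← this]
  simp

/-- UNI: union bound. -/
theorem uni (hPUSH : T_PUSH) (hU : T_U) (hA : T_A) (hB : T_B) : T_UNI := by
  intro k r s d A _ _ C w β h e p q hw hp hp2 hq hq2 h64 hcA hHN
  by_contra hcon
  push Not at hcon
  have hp1 : p ≤ 1 := by linarith
  have hq1 : q ≤ 1 := by linarith
  set N := Fintype.card A with hN
  have hN1 : (1 : ℝ) ≤ N := by exact_mod_cast hcA
  set FF : Finset (Finset (Fin k)) := univ.filter (fun H => β < (VS e H).card ∧ H.card ≤ 2 * h) with hFF
  -- pointwise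
  have hpt : ∀ (x : Fin k → A) (R : Fin d → PA (VV k r A)) (z : VV k r A → Bool),
      1 ≤ ind (¬ GoodU e x R z) + ∑ H : Finset (Fin k), ind (∃ g, w < (C.T (K e x H) R g).depth) +
        ∑ H ∈ FF, ind (∃ g, EB C w (K e x H) (K e x H) R g) := by
    intro x R z
    have h2 : 0 ≤ ∑ H : Finset (Fin k), ind (∃ g, w < (C.T (K e x H) R g).depth) :=
      sum_nonneg fun _ _ => ind_nonneg _
    have h3 : 0 ≤ ∑ H ∈ FF, ind (∃ g, EB C w (K e x H) (K e x H) R g) :=
      sum_nonneg fun _ _ => ind_nonneg _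
    by_cases hG : GoodU e x R z
    · have hGB := hcon x R z hG
      unfold GoodB at hGB
      push Not at hGB
      obtain ⟨H, hH1, hH2, g, π, hπ, hall⟩ := hGB
      have h1 := ind_nonneg (¬ GoodU e x R z)
      by_cases hd : ∃ g, w < (C.T (K e x H) R g).depth
      · have : ind (∃ g, w < (C.T (K e x H) R g).depth) ≤
            ∑ H : Finset (Fin k), ind (∃ g, w < (C.T (K e x H) R g).depth) :=
          single_le_sum (f := fun H => ind (∃ g, w < (C.T (K e x H) R g).depth))
            (fun _ _ => ind_nonneg _) (mem_univ H)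
        rw [ind_of hd] at this
        linarith
      · push Not at hd
        have hE : ∃ g, EB C w (K e x H) (K e x H) R g := by
          refine ⟨g, ?_, π, hπ, hall⟩
          intro c hc
          rw [Ckt.mem_cht] at hc
          obtain ⟨⟨b, a⟩, _, rfl⟩ := hc
          rcases a with i | g'
          · refine le_trans ?_ hw
            simp only [Ckt.stree, Sum.elim_inl]
            cases i <;> simp [Inp.tree, DT.depth]
          · exact hd g'
        have hHF : H ∈ FF := by
          simp only [hFF, mem_filter, mem_univ, true_and]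
          exact ⟨hH1, hH2⟩
        have : ind (∃ g, EB C w (K e x H) (K e x H) R g) ≤
            ∑ H ∈ FF, ind (∃ g, EB C w (K e x H) (K e x H) R g) :=
          single_le_sum (f := fun H => ind (∃ g, EB C w (K e x H) (K e x H) R g))
            (fun _ _ => ind_nonneg _) hHF
        rw [ind_of hE] at this
        linarith
    · rw [ind_of hG]
      linarith
  have hWn : ∀ R : Fin d → PA (VV k r A), 0 ≤ Wt q p R := fun R => Wt_nonneg hq.le hq1 hp.le hp1 R
  have hzn : ∀ z : VV k r A → Bool, 0 ≤ wz p z := fun z => wz_nonneg hp.le hp1 z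
  have hz1 : ∑ z : VV k r A → Bool, wz p z = 1 := sum_wz p
  have hW1 : ∑ R : Fin d → PA (VV k r A), ∑ z : VV k r A → Bool, Wt q p R * wz p z = 1 := by
    have := hPUSH (VV k r A) d q p (fun _ => 1)
    simpa [hz1] using this
  -- for one x
  have hx : ∀ x : Fin k → A, 1 ≤ ((1 + N * p) ^ k - 1) +
      2 ^ k * (s * (3 / 2 * 16 ^ k / 2 ^ (w + 1))) +
      ∑ H ∈ FF, ∑ R : Fin d → PA (VV k r A), Wt q p R *
        ind (∃ g, EB C w (K e x H) (K e x H) R g) := by
    intro x
    have h0 : (1 : ℝ) ≤ ∑ R : Fin d → PA (VV k r A), ∑ z : VV k r A → Bool, Wt q p R * wz p z *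
        (ind (¬ GoodU e x R z) + ∑ H : Finset (Fin k), ind (∃ g, w < (C.T (K e x H) R g).depth) +
        ∑ H ∈ FF, ind (∃ g, EB C w (K e x H) (K e x H) R g)) := by
      rw [← hW1]
      apply sum_le_sum; intro R _
      apply sum_le_sum; intro z _
      exact le_mul_of_one_le_right (mul_nonneg (hWn R) (hzn z)) (hpt x R z)
    have h1 : ∑ R : Fin d → PA (VV k r A), ∑ z : VV k r A → Bool, Wt q p R * wz p z *
        ind (¬ GoodU e x R z) ≤ (1 + N * p) ^ k - 1 := by
      refine le_trans (le_of_eq ?_) (hU k r A e x p hp.le hp1)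
      rw [← hPUSH (VV k r A) d q p (fun z => ind (∃ x', x' ≠ x ∧ ∀ j, pos e x' j ≠ pos e x j →
        z (pos e x' j) = true))]
      apply sum_congr rfl; intro R _
      apply sum_congr rfl; intro z _
      congr 1
      apply ind_congr
      unfold GoodU
      push Not
      apply exists_congr; intro x'
      apply and_congr_right; intro _
      apply forall_congr'; intro j
      apply imp_congr_right; intro _
      simp
    have hsep : ∀ G : (Fin d → PA (VV k r A)) → ℝ,
        ∑ R : Fin d → PA (VV k r A), ∑ z : VV k r A → Bool, Wt q p R * wz p z * G R =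
        ∑ R : Fin d → PA (VV k r A), Wt q p R * G R := by
      intro G
      apply sum_congr rfl; intro R _
      have : ∀ z : VV k r A → Bool, Wt q p R * wz p z * G R = (Wt q p R * G R) * wz p z := fun z => by ring
      simp_rw [this]
      rw [← mul_sum, hz1, mul_one]
    have h2 : ∑ R : Fin d → PA (VV k r A), ∑ z : VV k r A → Bool, Wt q p R * wz p z *
        (∑ H : Finset (Fin k), ind (∃ g, w < (C.T (K e x H) R g).depth)) ≤
        2 ^ k * (s * (3 / 2 * 16 ^ k / 2 ^ (w + 1))) := by
      rw [hsep]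
      simp_rw [mul_sum]
      rw [sum_comm]
      have : ∀ H ∈ (univ : Finset (Finset (Fin k))), ∑ R : Fin d → PA (VV k r A), Wt q p R *
          ind (∃ g, w < (C.T (K e x H) R g).depth) ≤ s * (3 / 2 * 16 ^ k / 2 ^ (w + 1)) := by
        intro H _
        refine (hA (VV k r A) s d C w (K e x H) p q hw hp hp2 hq hq2 h64).trans ?_
        have hc : (K e x H).card ≤ k :=
          (card_image_le).trans ((card_le_univ H).trans (by simp))
        have : (16 : ℝ) ^ (K e x H).card ≤ 16 ^ k := pow_le_pow_right₀ (by norm_num) hc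
        gcongr
      refine (sum_le_sum this).trans (le_of_eq ?_)
      rw [sum_const, nsmul_eq_mul, card_univ, Fintype.card_finset, Fintype.card_fin]
      push_cast
      ring
    have h3 : ∑ R : Fin d → PA (VV k r A), ∑ z : VV k r A → Bool, Wt q p R * wz p z *
        (∑ H ∈ FF, ind (∃ g, EB C w (K e x H) (K e x H) R g)) =
        ∑ H ∈ FF, ∑ R : Fin d → PA (VV k r A), Wt q p R *
          ind (∃ g, EB C w (K e x H) (K e x H) R g) := by
      rw [hsep]
      simp_rw [mul_sum]
      rw [sum_comm]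
    refine h0.trans ?_
    simp only [mul_add, sum_add_distrib]
    rw [h3]
    gcongr
  -- the third sum
  have h3 : ∑ x : Fin k → A, ∑ H ∈ FF, ∑ R : Fin d → PA (VV k r A), Wt q p R *
        ind (∃ g, EB C w (K e x H) (K e x H) R g) ≤
      (N : ℝ) ^ k * (2 ^ k * (s * (3 / 2 * (1 / q) ^ (d * (2 * h)) / N ^ (β + 1)))) := by
    rw [sum_comm]
    have hH : ∀ H ∈ FF, ∑ x : Fin k → A, ∑ R : Fin d → PA (VV k r A), Wt q p R *
        ind (∃ g, EB C w (K e x H) (K e x H) R g) ≤
        (N : ℝ) ^ k * (s * (3 / 2 * (1 / q) ^ (d * (2 * h)) / N ^ (β + 1))) := by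
      intro H hHF
      simp only [hFF, mem_filter, mem_univ, true_and] at hHF
      have hb := hB k r s d A C w e H p q hw hp hp2 hq hq2 h64
      have hqp : 0 < q ^ (d * H.card) := by positivity
      have h1 : ∑ x : Fin k → A, ∑ R : Fin d → PA (VV k r A), Wt q p R *
          ind (∃ g, EB C w (K e x H) (K e x H) R g) ≤
          (1 / q) ^ (d * H.card) * (s * (3 / 2 * (N : ℝ) ^ (k - (VS e H).card))) := by
        rw [one_div, inv_pow]
        rw [inv_mul_eq_div, le_div_iff₀ hqp, mul_comm]
        exact hb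
      refine h1.trans ?_
      have hq1' : 1 ≤ 1 / q := by rw [le_div_iff₀ hq]; linarith
      have h2 : (1 / q) ^ (d * H.card) ≤ (1 / q) ^ (d * (2 * h)) :=
        pow_le_pow_right₀ hq1' (Nat.mul_le_mul_left _ hHF.2)
      have hVk : (VS e H).card ≤ k := (card_le_univ _).trans (by simp)
      have h4 : (N : ℝ) ^ (k - (VS e H).card) ≤ (N : ℝ) ^ k / N ^ (β + 1) := by
        rw [le_div_iff₀ (by positivity), ← pow_add]
        exact pow_le_pow_right₀ hN1 (by omega)
      calc (1 / q) ^ (d * H.card) * (s * (3 / 2 * (N : ℝ) ^ (k - (VS e H).card)))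
          ≤ (1 / q) ^ (d * (2 * h)) * (s * (3 / 2 * ((N : ℝ) ^ k / N ^ (β + 1)))) := by gcongr
        _ = _ := by ring
    refine (sum_le_sum hH).trans ?_
    rw [sum_const, nsmul_eq_mul]
    have hc : (FF.card : ℝ) ≤ 2 ^ k := by
      have : FF.card ≤ 2 ^ k := (card_le_univ _).trans (by simp)
      exact_mod_cast this
    have hpos : 0 ≤ (N : ℝ) ^ k * (s * (3 / 2 * (1 / q) ^ (d * (2 * h)) / N ^ (β + 1))) := by positivity
    calc (FF.card : ℝ) * ((N : ℝ) ^ k * (s * (3 / 2 * (1 / q) ^ (d * (2 * h)) / N ^ (β + 1))))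
        ≤ 2 ^ k * ((N : ℝ) ^ k * (s * (3 / 2 * (1 / q) ^ (d * (2 * h)) / N ^ (β + 1)))) :=
          mul_le_mul_of_nonneg_right hc hpos
      _ = _ := by ring
  -- sum over x
  have hsum := sum_le_sum (fun x (_ : x ∈ (univ : Finset (Fin k → A))) => hx x)
  rw [sum_add_distrib, sum_const, sum_const, card_univ, Fintype.card_fun, Fintype.card_fin, ← hN,
    nsmul_eq_mul, nsmul_eq_mul, mul_one] at hsum
  push_cast at hsum
  unfold HN at hHN
  have hNk : (0 : ℝ) < (N : ℝ) ^ k := by positivity
  have hfin := mul_lt_mul_of_pos_left hHN hNk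
  rw [mul_one, mul_add] at hfin
  linarith

end Pool.Agent.H81.AC
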