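import Pool.Agent.H68.AC.Targets

/-!
# SETH for constant-depth circuits, module HG: expanding hypergraphs
-/

namespace Pool.Agent.H81.AC

open Finset Pool.Agent.H68.AC

/-- HG: expanding hypergraphs exist. -/
theorem hg : T_HG := by
  intro β δ hβ0 hβ1 hδ
  have hx0 : 0 < β ^ δ := Real.rpow_pos_of_pos hβ0 δ
  have hx1 : β ^ δ < 1 := Real.rpow_lt_one hβ0.le hβ1 hδ
  obtain ⟨r, hr⟩ := exists_pow_lt_of_lt_one (show (0:ℝ) < 1 / 4 by norm_num) hx1
  refine ⟨r, fun k hk => ?_⟩
  by_contra hcon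
  push Not at hcon
  set bt := ⌊β * k⌋₊ with hbt
  set h := ⌊δ * k⌋₊ with hh
  let Bad : Finset (Fin k) × Finset (Fin k) → Finset (Fin k → Fin r → Fin k) := fun q =>
    Fintype.piFinset (fun j => Fintype.piFinset (fun _ => if j ∈ q.2 then q.1 else univ))
  let I : Finset (Finset (Fin k) × Finset (Fin k)) :=
    univ.filter (fun q => q.1.card ≤ bt ∧ q.2.card = h + 1)
  have hk0 : (0 : ℝ) < k := by exact_mod_cast hk
  have hcov : (univ : Finset (Fin k → Fin r → Fin k)) ⊆ I.biUnion Bad := by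
    intro e _
    have he := hcon e
    unfold Expd at he
    push Not at he
    obtain ⟨S, hS, hc⟩ := he
    obtain ⟨J, hJ, hJc⟩ := Finset.exists_subset_card_eq (show h + 1 ≤ _ from hc)
    refine mem_biUnion.2 ⟨(S, J), ?_, ?_⟩
    · simp only [I, mem_filter, mem_univ, true_and]
      exact ⟨hS, hJc⟩
    · simp only [Bad, Fintype.mem_piFinset]
      intro j i
      by_cases hj : j ∈ J
      · have := hJ hj
        simp only [mem_filter, mem_univ, true_and] at this
        simp only [hj, if_true]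
        exact this (some i)
      · simp [hj]
  have hcard : ∀ q ∈ I, ((Bad q).card : ℝ) ≤ (k : ℝ) ^ (r * k) * β ^ (r * (h + 1)) := by
    intro q hq
    simp only [I, mem_filter, mem_univ, true_and] at hq
    have h1 : ((Bad q).card : ℝ) = ∏ j : Fin k, (if j ∈ q.2 then (q.1.card : ℝ) ^ r else (k : ℝ) ^ r) := by
      simp only [Bad, Fintype.card_piFinset]
      push_cast
      apply prod_congr rfl
      intro j _
      by_cases hj : j ∈ q.2 <;> simp [hj]
    have hle : (q.1.card : ℝ) ≤ β * k :=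
      le_trans (by exact_mod_cast hq.1) (Nat.floor_le (by positivity))
    have h2 : ∀ j ∈ (univ : Finset (Fin k)), (if j ∈ q.2 then (q.1.card : ℝ) ^ r else (k : ℝ) ^ r) ≤
        (k : ℝ) ^ r * (if j ∈ q.2 then β ^ r else 1) := by
      intro j _
      split_ifs
      · rw [← mul_pow]
        exact pow_le_pow_left₀ (by positivity) (by linarith) r
      · simp
    rw [h1]
    refine (prod_le_prod (fun j _ => by split_ifs <;> positivity) h2).trans (le_of_eq ?_)
    rw [prod_mul_distrib, prod_const, card_univ, Fintype.card_fin, prod_ite, prod_const, prod_const_one,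
      mul_one, filter_mem_eq_inter, univ_inter, hq.2, ← pow_mul, ← pow_mul]
  have hI : (I.card : ℝ) ≤ 4 ^ k := by
    have : I.card ≤ (univ : Finset (Finset (Fin k) × Finset (Fin k))).card := card_le_card (filter_subset _ _)
    rw [card_univ, Fintype.card_prod, Fintype.card_finset, Fintype.card_fin] at this
    calc (I.card : ℝ) ≤ ((2 ^ k * 2 ^ k : ℕ) : ℝ) := by exact_mod_cast this
      _ = 4 ^ k := by push_cast; rw [← mul_pow]; norm_num
  have htot : ((k : ℝ) ^ (r * k)) ≤ ∑ q ∈ I, ((Bad q).card : ℝ) := by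
    have h1 := (card_le_card hcov).trans card_biUnion_le
    rw [card_univ, Fintype.card_fun, Fintype.card_fun, Fintype.card_fin, Fintype.card_fin, ← pow_mul] at h1
    exact_mod_cast h1
  have hpow : β ^ (r * (h + 1)) ≤ ((β ^ δ) ^ r) ^ k := by
    have h1 : β ^ (r * (h + 1)) = β ^ ((r * (h + 1) : ℕ) : ℝ) := (Real.rpow_natCast _ _).symm
    have h2 : ((β ^ δ) ^ r) ^ k = β ^ (δ * ((r * k : ℕ) : ℝ)) := by
      rw [← pow_mul, ← Real.rpow_natCast, ← Real.rpow_mul hβ0.le]
    rw [h1, h2]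
    apply Real.rpow_le_rpow_of_exponent_ge hβ0 hβ1.le
    have h3 : δ * k < h + 1 := Nat.lt_floor_add_one _
    push_cast
    nlinarith [h3.le, (Nat.cast_nonneg r : (0 : ℝ) ≤ r)]
  have hlt : 4 ^ k * ((β ^ δ) ^ r) ^ k < (1 : ℝ) := by
    rw [← mul_pow]
    exact pow_lt_one₀ (by positivity) (by linarith) (by omega)
  have hfin : ((k : ℝ) ^ (r * k)) ≤ (k : ℝ) ^ (r * k) * (4 ^ k * ((β ^ δ) ^ r) ^ k) := by
    calc ((k : ℝ) ^ (r * k)) ≤ ∑ q ∈ I, ((Bad q).card : ℝ) := htot
      _ ≤ ∑ q ∈ I, (k : ℝ) ^ (r * k) * β ^ (r * (h + 1)) := sum_le_sum hcard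
      _ = I.card * ((k : ℝ) ^ (r * k) * β ^ (r * (h + 1))) := by rw [sum_const, nsmul_eq_mul]
      _ ≤ 4 ^ k * ((k : ℝ) ^ (r * k) * ((β ^ δ) ^ r) ^ k) := by gcongr
      _ = _ := by ring
  have hkp : (0 : ℝ) < (k : ℝ) ^ (r * k) := by positivity
  nlinarith

end Pool.Agent.H81.AC
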